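import Pool.Agent.Helper68.ES.St1

/-!
# Project ES (MP_cb927e_an), module DRM: Markov's inequality with weights
-/

set_option autoImplicit false

open MeasureTheory Set Filter Topology
open scoped ENNReal RealInnerProductSpace

namespace Pool.Agent.Helper16.ES

open Pool.Agent.Helper68.ES Pool.Agent.Helper68.EP Pool.Agent.Helper20.RG
open Pool.Agent.Helper20.RL (RQ Rich BM Fml Hit)
open Pool.Agent.Helper68.LM (Pl BB Bd Av HL ft fm DQ)

/-- The pairs of points with distance at most `r` in both coordinates. -/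
private def TT (r : ℝ) : Set (Pl × Pl) := {z | z.2 ∈ Sq z.1 r}

private theorem TT_meas (r : ℝ) : MeasurableSet (TT r) := by
  have h : IsClosed (TT r) := by
    have e : TT r = {z : Pl × Pl | |z.2 0 - z.1 0| ≤ r} ∩ {z : Pl × Pl | |z.2 1 - z.1 1| ≤ r} := by
      ext z; rfl
    rw [e]
    refine IsClosed.inter ?_ ?_
    · exact isClosed_le (by fun_prop) continuous_const
    · exact isClosed_le (by fun_prop) continuous_const
  exact h.measurableSet

private theorem sq_comm {x y : Pl} {r : ℝ} : y ∈ Sq x r ↔ x ∈ Sq y r := by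
  unfold Sq
  simp only [mem_setOf_eq, abs_sub_comm (y 0) (x 0), abs_sub_comm (y 1) (x 1)]

/-- Tonelli -/
private theorem swap {K S : Set Pl} {r d : ℝ} (hK : MeasurableSet K) (hS : MeasurableSet S)
    (h : ∀ y : Pl, volume (K ∩ Sq y r) ≤ ENNReal.ofReal d) :
    Measurable (fun x : Pl => volume (S ∩ Sq x r)) ∧
      ∫⁻ x in K, volume (S ∩ Sq x r) ≤ ENNReal.ofReal d * volume S := by
  have e1 : ∀ x : Pl, (volume.restrict S) (Prod.mk x ⁻¹' TT r) = volume (S ∩ Sq x r) := by
    intro x
    rw [Measure.restrict_apply ((TT_meas r).preimage measurable_prodMk_left), inter_comm]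
    rfl
  have e2 : ∀ y : Pl, (volume.restrict K) ((fun x => (x, y)) ⁻¹' TT r) = volume (K ∩ Sq y r) := by
    intro y
    rw [Measure.restrict_apply ((TT_meas r).preimage measurable_prodMk_right), inter_comm]
    congr 2
    ext x
    exact sq_comm
  have hm : Measurable (fun x : Pl => volume (S ∩ Sq x r)) := by
    have := measurable_measure_prodMk_left (ν := volume.restrict S) (TT_meas r)
    simpa only [e1] using this
  refine ⟨hm, ?_⟩
  have h1 := Measure.prod_apply (μ := volume.restrict K) (ν := volume.restrict S) (TT_meas r)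
  have h2 := Measure.prod_apply_symm (μ := volume.restrict K) (ν := volume.restrict S) (TT_meas r)
  simp only [e1] at h1
  simp only [e2] at h2
  rw [← h1, h2]
  calc ∫⁻ y in S, volume (K ∩ Sq y r) ≤ ∫⁻ _ in S, ENNReal.ofReal d :=
        lintegral_mono fun y => h y
    _ = ENNReal.ofReal d * volume S := by rw [setLIntegral_const]

/-- The geometric sum. -/
private theorem geom {m₀ c r : ℝ} (hc : 0 < c) (hr : 0 < r) (hm : 0 < m₀) (M : ℝ≥0∞) (n : ℕ) :
    ∑ a ∈ Finset.range n, ENNReal.ofReal (2 ^ a * m₀) *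
      (if ENNReal.ofReal (c * (2 ^ a * m₀) * r ^ 2) < M then 1 else 0) ≤
      ENNReal.ofReal (2 / (c * r ^ 2)) * M := by
  induction n with
  | zero => simp
  | succ n ih =>
    rw [Finset.sum_range_succ]
    by_cases h : ENNReal.ofReal (c * (2 ^ n * m₀) * r ^ 2) < M
    · rw [if_pos h, mul_one]
      have h1 : ∀ k : ℕ, ∑ a ∈ Finset.range k, ENNReal.ofReal (2 ^ a * m₀) *
          (if ENNReal.ofReal (c * (2 ^ a * m₀) * r ^ 2) < M then 1 else 0) ≤
          ENNReal.ofReal (2 ^ k * m₀) := by
        intro k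
        induction k with
        | zero => simp
        | succ k ihk =>
          rw [Finset.sum_range_succ, show (2 : ℝ) ^ (k + 1) * m₀ = 2 ^ k * m₀ + 2 ^ k * m₀ by ring,
            ENNReal.ofReal_add (by positivity) (by positivity)]
          refine add_le_add ihk ?_
          split_ifs
          · rw [mul_one]
          · rw [mul_zero]; exact zero_le
      calc _ ≤ ENNReal.ofReal (2 ^ n * m₀) + ENNReal.ofReal (2 ^ n * m₀) := add_le_add (h1 n) le_rfl
        _ = ENNReal.ofReal (2 / (c * r ^ 2)) * ENNReal.ofReal (c * (2 ^ n * m₀) * r ^ 2) := by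
          rw [← ENNReal.ofReal_add (by positivity) (by positivity), ← ENNReal.ofReal_mul (by positivity)]
          congr 1
          field_simp
          ring
        _ ≤ ENNReal.ofReal (2 / (c * r ^ 2)) * M := by gcongr
    · rw [if_neg h, mul_zero, add_zero]
      exact ih

theorem hDRM (_hPT : Pool.Agent.Helper20.RG.StPT) : Pool.Agent.Helper68.ES.StDRM := by
  intro N n K S r D₁ c m₀ hK hS hr hD hc hm hKr
  have hsw := fun j (hj : j < N) => swap hK (hS j hj) hKr
  have hM : Measurable fun x : Pl => ∑ j ∈ Finset.range N, volume (S j ∩ Sq x r) :=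
    Finset.measurable_sum _ fun j hj => (hsw j (Finset.mem_range.1 hj)).1
  have hA : ∀ a : ℕ, MeasurableSet {x : Pl | ENNReal.ofReal (c * (2 ^ a * m₀) * r ^ 2) <
      ∑ j ∈ Finset.range N, volume (S j ∩ Sq x r)} := fun a =>
    measurableSet_lt measurable_const hM
  have e1 : ∀ a : ℕ, ENNReal.ofReal (2 ^ a * m₀) *
      volume {x | x ∈ K ∧ ENNReal.ofReal (c * (2 ^ a * m₀) * r ^ 2) <
        ∑ j ∈ Finset.range N, volume (S j ∩ Sq x r)} =
      ∫⁻ x in K, ENNReal.ofReal (2 ^ a * m₀) *
        (if ENNReal.ofReal (c * (2 ^ a * m₀) * r ^ 2) <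
          ∑ j ∈ Finset.range N, volume (S j ∩ Sq x r) then 1 else 0) := by
    intro a
    have hind : Measurable fun x : Pl => (if ENNReal.ofReal (c * (2 ^ a * m₀) * r ^ 2) <
        ∑ j ∈ Finset.range N, volume (S j ∩ Sq x r) then (1 : ℝ≥0∞) else 0) :=
      Measurable.ite (hA a) measurable_const measurable_const
    rw [lintegral_const_mul _ hind]
    congr 1
    have e2 : (fun x : Pl => (if ENNReal.ofReal (c * (2 ^ a * m₀) * r ^ 2) <
        ∑ j ∈ Finset.range N, volume (S j ∩ Sq x r) then (1 : ℝ≥0∞) else 0)) =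
        indicator {x : Pl | ENNReal.ofReal (c * (2 ^ a * m₀) * r ^ 2) <
          ∑ j ∈ Finset.range N, volume (S j ∩ Sq x r)} 1 := by
      funext x
      rw [indicator_apply]
      rfl
    rw [e2, lintegral_indicator_one (hA a), Measure.restrict_apply (hA a), inter_comm]
    rfl
  rw [Finset.sum_congr rfl fun a _ => e1 a, ← lintegral_finsetSum' _ fun a _ => ?_]
  · calc ∫⁻ x in K, ∑ a ∈ Finset.range n, ENNReal.ofReal (2 ^ a * m₀) *
        (if ENNReal.ofReal (c * (2 ^ a * m₀) * r ^ 2) <
          ∑ j ∈ Finset.range N, volume (S j ∩ Sq x r) then 1 else 0)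
        ≤ ∫⁻ x in K, ENNReal.ofReal (2 / (c * r ^ 2)) *
          ∑ j ∈ Finset.range N, volume (S j ∩ Sq x r) :=
          lintegral_mono fun x => geom hc hr hm _ n
      _ = ENNReal.ofReal (2 / (c * r ^ 2)) *
          ∑ j ∈ Finset.range N, ∫⁻ x in K, volume (S j ∩ Sq x r) := by
          rw [lintegral_const_mul _ hM,
            lintegral_finsetSum' _ fun j hj => (hsw j (Finset.mem_range.1 hj)).1.aemeasurable]
      _ ≤ ENNReal.ofReal (2 / (c * r ^ 2)) *
          ∑ j ∈ Finset.range N, ENNReal.ofReal (D₁ * r ^ 2) * volume (S j) := by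
          gcongr with j hj
          exact (hsw j (Finset.mem_range.1 hj)).2
      _ = ENNReal.ofReal (2 * D₁ / c) * ∑ j ∈ Finset.range N, volume (S j) := by
          rw [← Finset.mul_sum, ← mul_assoc, ← ENNReal.ofReal_mul (by positivity)]
          congr 2
          field_simp
  · have hind : Measurable fun x : Pl => (if ENNReal.ofReal (c * (2 ^ a * m₀) * r ^ 2) <
        ∑ j ∈ Finset.range N, volume (S j ∩ Sq x r) then (1 : ℝ≥0∞) else 0) :=
      Measurable.ite (hA a) measurable_const measurable_const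
    exact (hind.const_mul _).aemeasurable

end Pool.Agent.Helper16.ES
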