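import Pool.Agent.Helper68.ES.St2

/-!
# Project ES (MP_cb927e_an), module SUP: bound and support of the charge density
-/

set_option autoImplicit false

open MeasureTheory Set Filter Topology
open scoped ENNReal RealInnerProductSpace

namespace Pool.Agent.Helper16.ES

open Pool.Agent.Helper68.ES Pool.Agent.Helper68.EP Pool.Agent.Helper20.RG
open Pool.Agent.Helper20.RL (RQ Rich BM Fml Hit)
open Pool.Agent.Helper68.LM (Pl BB Bd Av HL ft fm DQ)

/-- The scales at which a point has a given age level. -/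
private theorem ages (hEFB : StEFB) (E : Set Pl) (D : ℝ) {q : ℕ} (hq : 1 ≤ q) (z : Pl) :
    ∃ s : Finset ℤ, s.card ≤ 2 ^ q ∧ ∀ k : ℤ, z ∈ Eg E D q k → k ∈ s := by
  by_cases h : ∃ k : ℤ, z ∈ Eg E D q k
  · obtain ⟨k₁, hk₁⟩ := h
    have hq0 : q ≠ 0 := by omega
    have hag : ag q = 2 ^ q := by unfold ag; rw [if_neg hq0]
    have hup : ∀ b b' : ℤ, b ≤ b' → z ∈ Fb E D b → z ∈ Fb E D b' := fun b b' hb h =>
      hEFB.2.1 E D D b b' hb le_rfl h
    obtain ⟨κ, hκ, hmin⟩ := Int.exists_least_of_bdd (P := fun b => z ∈ Fb E D b)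
      ⟨k₁ - 2 ^ (q + 1), fun b hb => by
        by_contra hlt
        exact hk₁.2 (hup b _ (by omega) hb)⟩ ⟨_, hk₁.1⟩
    refine ⟨Finset.Ico (κ + 2 ^ q) (κ + 2 ^ (q + 1)), ?_, ?_⟩
    · rw [Int.card_Ico, show κ + 2 ^ (q + 1) - (κ + 2 ^ q) = ((2 ^ q : ℕ) : ℤ) by push_cast; ring,
        Int.toNat_natCast]
    · intro k hk
      rw [Finset.mem_Ico]
      have h1 := hmin _ hk.1
      rw [hag] at h1
      refine ⟨by linarith, ?_⟩
      by_contra hge
      exact hk.2 (hup κ _ (by linarith) hκ)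
  · exact ⟨∅, by simp, fun k hk => absurd ⟨k, hk⟩ h⟩

theorem hSUP (hEFB : Pool.Agent.Helper68.EP.StEFB) : Pool.Agent.Helper68.ES.StSUP := by
  intro p CH E u q J sl fl D θ m ω hC hE hq hD hθ hm
  have hz : ∀ (z : Pl) (k : ℤ), z ∉ Eg E D q k → ∑ j ∈ J, ω k j z = 0 := by
    intro z k hzk
    refine Finset.sum_eq_zero fun j _ => ?_
    by_contra h
    exact hzk (hC.supp k j z h).2.1
  have hb : ∀ z : Pl, cg p u J ω z ≤
      ENNReal.ofReal ((2 : ℝ) ^ (-(p * u)) * (2 ^ q * J.card * (35 / (m * θ)))) := by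
    intro z
    obtain ⟨s, hs, hs2⟩ := ages hEFB E D hq z
    unfold cg
    rw [tsum_eq_sum (s := s) fun k hk => hz z k fun h => hk (hs2 k h),
      ENNReal.ofReal_mul (by positivity)]
    refine mul_le_mul_right ?_ _
    calc ∑ k ∈ s, ∑ j ∈ J, ω k j z ≤ ∑ k ∈ s, ∑ j ∈ J, ENNReal.ofReal (35 / (m * θ)) :=
          Finset.sum_le_sum fun k _ => Finset.sum_le_sum fun j _ => hC.le k j z
      _ = (s.card : ℝ≥0∞) * ((J.card : ℝ≥0∞) * ENNReal.ofReal (35 / (m * θ))) := by
          simp only [Finset.sum_const, nsmul_eq_mul]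
      _ ≤ ((2 ^ q : ℕ) : ℝ≥0∞) * ((J.card : ℝ≥0∞) * ENNReal.ofReal (35 / (m * θ))) := by
          gcongr
      _ = ENNReal.ofReal (2 ^ q * J.card * (35 / (m * θ))) := by
          rw [ENNReal.ofReal_mul (by positivity), ENNReal.ofReal_mul (by positivity),
            ENNReal.ofReal_natCast, mul_assoc]
          congr 1
          rw [← ENNReal.ofReal_natCast]
          push_cast
          rfl
  have hsupp : ∀ z : Pl, cg p u J ω z ≠ 0 → z ∈ E ∧ ∃ b : ℤ, z ∉ Fb E D b := by
    intro z hzc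
    have h1 : ∃ k : ℤ, z ∈ Eg E D q k := by
      by_contra hno
      push Not at hno
      refine hzc ?_
      unfold cg
      rw [tsum_congr fun k => hz z k (hno k), tsum_zero, mul_zero]
    obtain ⟨k, hk⟩ := h1
    exact ⟨(hEFB.1 E D _).1 hk.1, _, hk.2⟩
  have hmeas : Measurable (cg p u J ω) := by
    unfold cg
    exact (Measurable.tsum fun k => Finset.measurable_sum _ fun j _ => hC.meas k j).const_mul _
  refine ⟨hb, hsupp, hmeas, ?_⟩
  have h1 : ∫⁻ z, cg p u J ω z ≤
      ENNReal.ofReal ((2 : ℝ) ^ (-(p * u)) * (2 ^ q * J.card * (35 / (m * θ)))) * volume E := by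
    calc ∫⁻ z, cg p u J ω z ≤ ∫⁻ z, E.indicator (fun _ =>
          ENNReal.ofReal ((2 : ℝ) ^ (-(p * u)) * (2 ^ q * J.card * (35 / (m * θ))))) z := by
          refine lintegral_mono fun z => ?_
          by_cases h : z ∈ E
          · rw [indicator_of_mem h]
            exact hb z
          · rw [indicator_of_notMem h]
            by_contra h2
            exact h (hsupp z (by
              intro h3
              exact h2 (le_of_eq h3))).1
      _ = _ := by rw [lintegral_indicator_const hE.1]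
  exact ne_of_lt (h1.trans_lt (ENNReal.mul_lt_top ENNReal.ofReal_lt_top hE.2.measure_lt_top))

end Pool.Agent.Helper16.ES
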